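import Pool.Agent.Helper74.BS.St

set_option autoImplicit false

/-! Project BS (helper74), MP_26f0da_lc, module TU: few turns give small numbers `cn K 1`. -/

namespace Pool.Agent.Helper65.BS

open Pool.Agent.Helper73.DC Pool.Agent.Helper74.BS
open Pool.Agent.Helper83.PT (fl tu TRun AccTurns)

section
variable {C G : Type}

/-- `Pops` with flags and the number of turns -/
inductive PopsT (mv : C → G → C → List G → Prop) :
    ℕ → Bool → C → List G → Bool → C → Fo → Prop where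
  | nil (u : Bool) (c : C) : PopsT mv 0 u c [] u c Fo.nil
  | cons (t1 t2 : ℕ) (u u2 u3 : Bool) (c c1 c2 c3 : C) (Z : G) (γ β : List G) (f g : Fo) :
      mv c Z c1 γ → PopsT mv t1 (fl γ u) c1 γ u2 c2 f → PopsT mv t2 u2 c2 β u3 c3 g →
      PopsT mv (tu γ u + t1 + t2) u c (Z :: β) u3 c3 (Fo.nd f g)

/-- `Accs` with flags and the number of turns -/
inductive AccsT (mv : C → G → C → List G → Prop) (F : C → Prop) :
    ℕ → Bool → C → List G → Fo → Prop where
  | fin (u : Bool) (c : C) (β : List G) : F c → AccsT mv F 0 u c β Fo.nil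
  | down (t1 : ℕ) (u : Bool) (c c1 : C) (Z : G) (γ β : List G) (f : Fo) : mv c Z c1 γ →
      AccsT mv F t1 (fl γ u) c1 γ f → AccsT mv F (tu γ u + t1) u c (Z :: β) (Fo.nd f Fo.nil)
  | next (t1 t2 : ℕ) (u u2 : Bool) (c c1 c2 : C) (Z : G) (γ β : List G) (f g : Fo) :
      mv c Z c1 γ → PopsT mv t1 (fl γ u) c1 γ u2 c2 f → AccsT mv F t2 u2 c2 β g →
      AccsT mv F (tu γ u + t1 + t2) u c (Z :: β) (Fo.nd f g)

variable {mv : C → G → C → List G → Prop} {F : C → Prop}

theorem PopsT.toPops {t : ℕ} {u u' : Bool} {c c' : C} {β : List G} {f : Fo}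
    (h : PopsT mv t u c β u' c' f) : Pops mv c β c' f := by
  induction h with
  | nil u c => exact Pops.nil c
  | cons t1 t2 u u2 u3 c c1 c2 c3 Z γ β f g hm _ _ i1 i2 => exact Pops.cons c c1 c2 c3 Z γ β f g hm i1 i2

theorem AccsT.toAccs {t : ℕ} {u : Bool} {c : C} {β : List G} {f : Fo}
    (h : AccsT mv F t u c β f) : Accs mv F c β f := by
  induction h with
  | fin u c β hF => exact Accs.fin c β hF
  | down t1 u c c1 Z γ β f hm _ i => exact Accs.down c c1 Z γ β f hm i
  | next t1 t2 u u2 c c1 c2 Z γ β f g hm hp _ i =>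
    exact Accs.next c c1 c2 Z γ β f g hm hp.toPops i

theorem fl_two {γ : List G} (h : 2 ≤ γ.length) (u : Bool) : fl γ u = true := by
  have h1 : γ ≠ [] := by
    rintro rfl; simp at h
  simp [fl, h1, h]

theorem fl_one (Y : G) (u : Bool) : fl [Y] u = u := by
  simp [fl]

theorem cn_one (K : ℕ) (a b : Fo) : cn K 1 (Fo.nd a b) =
    max (if K ≤ max 1 (lv a) then 1 else 0) (cn K 1 a) + cn K 1 b := by
  simp [cn, cnS, lv]

theorem cn_one_nil (K : ℕ) : cn K 1 Fo.nil = 0 := by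
  simp [cn, cnS]

/-- the first tree -/
theorem tree_le {K t s : ℕ} (hK : 2 ≤ K) {a : Fo} (h1 : cn K 1 a ≤ t) (h2 : 2 ≤ lv a → 1 ≤ t)
    (hs : t ≤ s) : max (if K ≤ max 1 (lv a) then 1 else 0) (cn K 1 a) ≤ s := by
  apply max_le _ (h1.trans hs)
  split_ifs with h
  · have h3 : 2 ≤ lv a := by
      rcases le_max_iff.mp h with h4 | h4 <;> omega
    exact (h2 h3).trans hs
  · exact Nat.zero_le _

theorem PopsT.bd {t : ℕ} {u u' : Bool} {c c' : C} {β : List G} {f : Fo}
    (h : PopsT mv t u c β u' c' f) : (∀ K, 2 ≤ K → cn K 1 f ≤ t) ∧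
      (u = true → β ≠ [] → 1 ≤ t) ∧ (β.length = 1 → 2 ≤ lv f → 1 ≤ t) := by
  induction h with
  | nil u c => exact ⟨fun K _ => by simp [cn_one_nil], fun _ h => (h rfl).elim, by simp⟩
  | cons t1 t2 u u2 u3 c c1 c2 c3 Z γ β f g hm hp1 hp2 i1 i2 =>
    obtain ⟨a1, a2, a3⟩ := i1
    obtain ⟨b1, b2, b3⟩ := i2
    have hlv : 2 ≤ lv f → 1 ≤ t1 := by
      intro hf
      rcases γ with _ | ⟨Y, _ | ⟨Y', γ⟩⟩
      · cases hp1; simp [lv] at hf
      · exact a3 rfl hf
      · exact a2 (fl_two (by simp) u) (by simp)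
    refine ⟨fun K hK => ?_, fun hu _ => ?_, fun hl h2 => ?_⟩
    · rw [cn_one]
      exact Nat.add_le_add (tree_le hK (a1 K hK) hlv (by omega)) (b1 K hK)
    · rcases γ with _ | ⟨Y, _ | ⟨Y', γ⟩⟩
      · simp [tu, hu]; omega
      · have := a2 (by rw [fl_one]; exact hu) (by simp)
        omega
      · have := a2 (fl_two (by simp) u) (by simp)
        omega
    · have hβ : β = [] := by
        rcases β with _ | ⟨Y, β⟩
        · rfl
        · simp at hl
      subst hβ
      cases hp2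
      have h3 : 2 ≤ lv f := by
        simp only [lv] at h2
        rcases le_max_iff.mp (show 2 ≤ max 1 (lv f) by omega) with h4 | h4 <;> omega
      have := hlv h3
      omega

theorem AccsT.bd {t : ℕ} {u : Bool} {c : C} {β : List G} {f : Fo}
    (h : AccsT mv F t u c β f) : (∀ K, 2 ≤ K → cn K 1 f ≤ t) ∧
      (2 ≤ lv f → (β.length = 1 ∨ u = true) → 1 ≤ t) ∧ (β = [] → lv f = 0) := by
  induction h with
  | fin u c β hF => exact ⟨fun K _ => by simp [cn_one_nil], fun h => by simp [lv] at h, by simp [lv]⟩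
  | down t1 u c c1 Z γ β f hm _ i =>
    obtain ⟨a1, a2, a3⟩ := i
    have hlv : 2 ≤ lv f → 1 ≤ t1 := by
      intro hf
      rcases γ with _ | ⟨Y, _ | ⟨Y', γ⟩⟩
      · have := a3 rfl
        omega
      · exact a2 hf (Or.inl rfl)
      · exact a2 hf (Or.inr (fl_two (by simp) u))
    refine ⟨fun K hK => ?_, fun h2 _ => ?_, by simp⟩
    · rw [cn_one, cn_one_nil, Nat.add_zero]
      exact tree_le hK (a1 K hK) hlv (by omega)
    · have h3 : 2 ≤ lv f := by
        simp only [lv] at h2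
        rcases le_max_iff.mp (show 2 ≤ max 1 (lv f) by omega) with h4 | h4 <;> omega
      have := hlv h3
      omega
  | next t1 t2 u u2 c c1 c2 Z γ β f g hm hp _ i =>
    obtain ⟨a1, a2, a3⟩ := i
    obtain ⟨b1, b2, b3⟩ := hp.bd
    have hlv : 2 ≤ lv f → 1 ≤ t1 := by
      intro hf
      rcases γ with _ | ⟨Y, _ | ⟨Y', γ⟩⟩
      · cases hp; simp [lv] at hf
      · exact b3 rfl hf
      · exact b2 (fl_two (by simp) u) (by simp)
    refine ⟨fun K hK => ?_, fun h2 hor => ?_, by simp⟩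
    · rw [cn_one]
      exact Nat.add_le_add (tree_le hK (b1 K hK) hlv (by omega)) (a1 K hK)
    · rcases hor with hl | hu
      · have hβ : β = [] := by
          rcases β with _ | ⟨Y, β⟩
          · rfl
          · simp at hl
        have h0 := a3 hβ
        have h3 : 2 ≤ lv f := by
          simp only [lv] at h2
          rcases le_max_iff.mp (show 2 ≤ max 1 (lv f) by omega) with h4 | h4 <;> omega
        have := hlv h3
        omega
      · rcases γ with _ | ⟨Y, _ | ⟨Y', γ⟩⟩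
        · simp [tu, hu]; omega
        · have := b2 (by rw [fl_one]; exact hu) (by simp)
          omega
        · have := b2 (fl_two (by simp) u) (by simp)
          omega

/-- splitting an accepting run over a concatenation -/
theorem AccsT.split (γ : List G) : ∀ {t : ℕ} {u : Bool} {c : C} {β : List G} {f : Fo},
    AccsT mv F t u c (γ ++ β) f → (∃ f1, AccsT mv F t u c γ f1) ∨
      ∃ t1 t2 u1 c1 f1 f2, PopsT mv t1 u c γ u1 c1 f1 ∧ AccsT mv F t2 u1 c1 β f2 ∧ t = t1 + t2 := by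
  induction γ with
  | nil =>
    intro t u c β f h
    exact Or.inr ⟨0, t, u, c, Fo.nil, f, PopsT.nil u c, h, by simp⟩
  | cons Z γ ih =>
    intro t u c β f h
    rw [List.cons_append] at h
    cases h with
    | fin _ _ _ hF => exact Or.inl ⟨_, AccsT.fin _ _ _ hF⟩
    | down t1 _ _ c1 _ γ' _ f hm h1 => exact Or.inl ⟨_, AccsT.down t1 u c c1 Z γ' γ f hm h1⟩
    | next t1 t2 _ u2 _ c1 c2 _ γ' _ f g hm hp h1 =>
      rcases ih h1 with ⟨f1, h2⟩ | ⟨s1, s2, u1, d1, f1, f2, h2, h3, h4⟩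
      · exact Or.inl ⟨_, AccsT.next t1 t2 u u2 c c1 c2 Z γ' γ f f1 hm hp h2⟩
      · refine Or.inr ⟨tu γ' u + t1 + s1, s2, u1, d1, _, f2,
          PopsT.cons t1 s1 u u2 u1 c c1 c2 d1 Z γ' γ f f1 hm hp h2, h3, by omega⟩

end

/-- runs have forests with the number of turns -/
theorem accsT_of_tRun {α : Type} (M : MPDA α) (w : List α) {t : ℕ}
    {x y : Bool × M.Q × (Fin M.k → ℕ) × List M.Γ} (h : TRun M w t x y) (ha : M.acc y.2.1) :
    ∃ f, AccsT (mmv M w) (fun c => M.acc c.1) t x.1 (x.2.1, x.2.2.1) x.2.2.2 f := by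
  induction h with
  | refl c => exact ⟨Fo.nil, AccsT.fin _ _ _ ha⟩
  | step t u q q' p d Z s γ c hm _ ih =>
    obtain ⟨f, hf⟩ := ih ha
    have hmv : mmv M w (q, p) Z (q', nps w d p) γ := ⟨d, hm, rfl⟩
    rcases AccsT.split γ hf with ⟨f1, h1⟩ | ⟨t1, t2, u1, c1, f1, f2, h1, h2, h3⟩
    · exact ⟨_, AccsT.down t u (q, p) (q', nps w d p) Z γ s f1 hmv h1⟩
    · refine ⟨Fo.nd f1 f2, ?_⟩
      have := AccsT.next t1 t2 u u1 (q, p) (q', nps w d p) c1 Z γ s f1 f2 hmv h1 h2
      rw [h3, ← Nat.add_assoc]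
      exact this

theorem hTU : Pool.Agent.Helper74.BS.StTU := by
  intro α M w t h
  obtain ⟨t', ht, u, q, p, s, ha, hr⟩ := h
  obtain ⟨f, hf⟩ := accsT_of_tRun M w hr ha
  exact ⟨f, hf.toAccs, fun K hK => (hf.bd.1 K hK).trans ht⟩

end Pool.Agent.Helper65.BS
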